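import Pool.Agent.H15.LU.Targets

/-!
# MP_812e67_ag, module NFD: the derivative of the equations of the normal form
-/

set_option autoImplicit false

namespace Pool.Agent.H77.LU.NFD

open Pool.Agent.H15.LU Filter Topology

theorem fs_apply (e : Fin 3 → ℕ) (i : Fin 3) : fs e i = e i := rfl

theorem fs_inj {e f : Fin 3 → ℕ} (h : fs e = fs f) : e = f := by
  funext i
  rw [← fs_apply e, ← fs_apply f, h]

def a1 : E9 := ⟨![0, 1, 2], by decide⟩
def a2 : E9 := ⟨![2, 0, 1], by decide⟩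
def a3 : E9 := ⟨![1, 5, 0], by decide⟩

theorem T0_eq (e : E9) : T₀ e = (if e = a1 then 1 else 0) + (if e = a2 then 1 else 0) +
    (if e = a3 then 1 else 0) := by
  have h1 : (e = a1) ↔ e.1 = ![0, 1, 2] := Subtype.ext_iff
  have h2 : (e = a2) ↔ e.1 = ![2, 0, 1] := Subtype.ext_iff
  have h3 : (e = a3) ↔ e.1 = ![1, 5, 0] := Subtype.ext_iff
  have n12 : (![0, 1, 2] : Fin 3 → ℕ) ≠ ![2, 0, 1] := by decide
  have n13 : (![0, 1, 2] : Fin 3 → ℕ) ≠ ![1, 5, 0] := by decide
  have n23 : (![2, 0, 1] : Fin 3 → ℕ) ≠ ![1, 5, 0] := by decide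
  unfold T₀
  simp only [h1, h2, h3]
  by_cases c1 : e.1 = ![0, 1, 2]
  · simp [c1, n12, n13]
  · by_cases c2 : e.1 = ![2, 0, 1]
    · simp [c2, n12.symm, n23]
    · by_cases c3 : e.1 = ![1, 5, 0]
      · simp [c3, n13.symm, n23.symm]
      · simp [c1, c2, c3]

open MvPolynomial in
theorem tp_T0 : tp T₀ = X 1 * X 2 ^ 2 + X 0 ^ 2 * X 2 + X 0 * X 1 ^ 5 := by
  unfold tp
  have h : ∀ e : E9, MvPolynomial.monomial (fs e.1) (T₀ e) =
      (if e = a1 then MvPolynomial.monomial (fs a1.1) (1 : ℂ) else 0) +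
      (if e = a2 then MvPolynomial.monomial (fs a2.1) (1 : ℂ) else 0) +
      (if e = a3 then MvPolynomial.monomial (fs a3.1) (1 : ℂ) else 0) := by
    intro e
    rw [T0_eq, map_add, map_add]
    congr 1
    · congr 1
      · split_ifs with h
        · rw [h]
        · simp
      · split_ifs with h
        · rw [h]
        · simp
    · split_ifs with h
      · rw [h]
      · simp
  rw [Finset.sum_congr rfl fun e _ => h e, Finset.sum_add_distrib, Finset.sum_add_distrib,
    Finset.sum_ite_eq', Finset.sum_ite_eq', Finset.sum_ite_eq']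
  simp only [Finset.mem_univ, if_true]
  have hm : ∀ e : Fin 3 → ℕ, (MvPolynomial.monomial (fs e) (1 : ℂ)) =
      X 0 ^ e 0 * X 1 ^ e 1 * X 2 ^ e 2 := by
    intro e
    rw [MvPolynomial.monomial_eq, C_1, one_mul, Finsupp.prod_fintype _ _ (by simp),
      Fin.prod_univ_three]
    rfl
  rw [hm, hm, hm]
  simp [a1, a2, a3]

theorem gp_smul (s : ℂ) (δ : E7 → ℂ) : gp (s • δ) = s • gp δ := by
  unfold gp
  rw [Finset.smul_sum]
  refine Finset.sum_congr rfl fun e _ => ?_
  split_ifs with h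
  · simp
  · simp [MvPolynomial.smul_monomial]

theorem coeff_gp (δ : E7 → ℂ) (e : E7) :
    (gp δ).coeff (fs e.1) = if e = z7 then 0 else δ e := by
  unfold gp
  rw [MvPolynomial.coeff_sum, Finset.sum_eq_single e]
  · split_ifs with h
    · simp
    · simp
  · intro f _ hf
    split_ifs with h
    · simp
    · rw [MvPolynomial.coeff_monomial, if_neg]
      intro hh
      exact hf (Subtype.ext (fs_inj hh))
  · intro h
    exact absurd (Finset.mem_univ e) h

open MvPolynomial in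
theorem sb_T0 (s : ℂ) (δ : E7 → ℂ) : sb T₀ (s • δ) =
    tp T₀ + s • (gp δ * X 2 ^ 2 + 5 * X 0 * X 1 ^ 4 * gp δ) +
      s ^ 2 • (X 0 * (10 * X 1 ^ 3 * gp δ ^ 2)) + s ^ 3 • (X 0 * (10 * X 1 ^ 2 * gp δ ^ 3)) +
      s ^ 4 • (X 0 * (5 * X 1 * gp δ ^ 4)) + s ^ 5 • (X 0 * gp δ ^ 5) := by
  unfold sb
  rw [tp_T0, gp_smul]
  simp only [map_add, map_mul, map_pow, aeval_X, Matrix.cons_val_zero, Matrix.cons_val_one,
    Matrix.cons_val]
  simp only [MvPolynomial.smul_eq_C_mul, map_pow]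
  ring

/-- the exponent `(i - 1, j - 4, k + 2)` -/
def sh (e : E7) (h : 1 ≤ e.1 0 ∧ 4 ≤ e.1 1) : E7 :=
  ⟨![e.1 0 - 1, e.1 1 - 4, e.1 2 + 2], by
    have h2 := e.2
    rw [Fin.sum_univ_three] at h2 ⊢
    simp only [Matrix.cons_val_zero, Matrix.cons_val_one, Matrix.cons_val]
    omega⟩

theorem sh_ne (e : E7) (h : 1 ≤ e.1 0 ∧ 4 ≤ e.1 1) : sh e h ≠ z7 := by
  intro hh
  have := congrFun (congrArg Subtype.val hh) 2
  simp [sh, z7] at this

open Classical in
open MvPolynomial in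
theorem coeff_lin (δ : E7 → ℂ) (e : E7) :
    (gp δ * X 2 ^ 2 + 5 * X 0 * X 1 ^ 4 * gp δ).coeff (fs e.1 + Finsupp.single 2 2) =
      (if e = z7 then 0 else δ e) +
        if h : 1 ≤ e.1 0 ∧ 4 ≤ e.1 1 then 5 * δ (sh e h) else 0 := by
  rw [MvPolynomial.coeff_add]
  congr 1
  · rw [MvPolynomial.X_pow_eq_monomial, MvPolynomial.coeff_mul_monomial, mul_one, coeff_gp]
  · have h5 : (5 * X 0 * X 1 ^ 4 * gp δ : MvPolynomial (Fin 3) ℂ) =
        gp δ * monomial (fs ![1, 4, 0]) 5 := by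
      rw [MvPolynomial.monomial_eq, Finsupp.prod_fintype _ _ (by simp), Fin.prod_univ_three]
      simp only [fs_apply, Matrix.cons_val_zero, Matrix.cons_val_one, Matrix.cons_val]
      rw [pow_zero, pow_one, mul_one, show (C 5 : MvPolynomial (Fin 3) ℂ) = 5 from map_ofNat C 5]
      ring
    rw [h5, MvPolynomial.coeff_mul_monomial']
    have hle : (fs ![1, 4, 0] ≤ fs e.1 + Finsupp.single 2 2) ↔ (1 ≤ e.1 0 ∧ 4 ≤ e.1 1) := by
      rw [Finsupp.le_def, Fin.forall_fin_succ, Fin.forall_fin_succ, Fin.forall_fin_succ]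
      simp [fs_apply]
    by_cases h : 1 ≤ e.1 0 ∧ 4 ≤ e.1 1
    · rw [if_pos (hle.2 h), dif_pos h]
      have hsub : fs e.1 + Finsupp.single 2 2 - fs ![1, 4, 0] = fs (sh e h).1 := by
        ext i
        fin_cases i
        · simp [sh, fs_apply]
        · simp [sh, fs_apply]
        · simp [sh, fs_apply]
      rw [hsub, coeff_gp, if_neg (sh_ne e h)]
      ring
    · rw [if_neg (fun hh => h (hle.1 hh)), dif_neg h]

theorem hasDeriv (δ : E7 → ℂ) (e : E7) :
    HasDerivAt (fun s : ℂ => HH T₀ (s • δ) e)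
      ((gp δ * MvPolynomial.X 2 ^ 2 + 5 * MvPolynomial.X 0 * MvPolynomial.X 1 ^ 4 * gp δ).coeff
        (fs e.1 + Finsupp.single 2 2) - if e = z7 then δ z7 else 0) 0 := by
  unfold HH
  simp only [sb_T0, MvPolynomial.coeff_add, MvPolynomial.coeff_smul]
  set m := fs e.1 + Finsupp.single 2 2
  generalize MvPolynomial.coeff m (tp T₀) = c0
  generalize (MvPolynomial.coeff m (gp δ * MvPolynomial.X 2 ^ 2) +
    MvPolynomial.coeff m (5 * MvPolynomial.X 0 * MvPolynomial.X 1 ^ 4 * gp δ)) = c1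
  generalize MvPolynomial.coeff m (MvPolynomial.X 0 * (10 * MvPolynomial.X 1 ^ 3 * gp δ ^ 2)) = c2
  generalize MvPolynomial.coeff m (MvPolynomial.X 0 * (10 * MvPolynomial.X 1 ^ 2 * gp δ ^ 3)) = c3
  generalize MvPolynomial.coeff m (MvPolynomial.X 0 * (5 * MvPolynomial.X 1 * gp δ ^ 4)) = c4
  generalize MvPolynomial.coeff m (MvPolynomial.X 0 * gp δ ^ 5) = c5
  generalize (if e.1 = ![0, 1, 0] then (1 : ℂ) else 0) = c6
  have hp : ∀ n : ℕ, HasDerivAt (fun s : ℂ => s ^ (n + 2)) 0 0 := by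
    intro n
    have := hasDerivAt_pow (n + 2) (0 : ℂ)
    simpa using this
  have hlast : HasDerivAt (fun s : ℂ => if e = z7 then (s • δ) z7 else 0)
      (if e = z7 then δ z7 else 0) 0 := by
    by_cases h : e = z7
    · simp only [h, if_true]
      have := (hasDerivAt_id (0 : ℂ)).mul_const (δ z7)
      simpa using this
    · simp only [h, if_false]
      exact hasDerivAt_const _ _
  have h1 := (hasDerivAt_id (0 : ℂ)).mul_const c1
  have h2 := (hp 0).mul_const c2
  have h3 := (hp 1).mul_const c3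
  have h4 := (hp 2).mul_const c4
  have h5 := (hp 3).mul_const c5
  have h := (((((((h1.const_add c0).add h2).add h3).add h4).add h5).sub_const c6).sub hlast)
  have h' := h.congr_deriv (g' := c1 - if e = z7 then δ z7 else 0) (by ring)
  refine h'.congr_of_eventuallyEq (Filter.Eventually.of_forall fun s => ?_)
  simp only [smul_eq_mul, Pi.sub_apply, Pi.add_apply, id]

open Classical in
theorem nfd : T_NFD := by
  intro r
  refine ⟨fun e => if e = z7 then -r z7 else
    if h : 1 ≤ e.1 0 ∧ 4 ≤ e.1 1 then r e - 5 * r (sh e h) else r e, fun e => ?_⟩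
  set δ : E7 → ℂ := fun e => if e = z7 then -r z7 else
    if h : 1 ≤ e.1 0 ∧ 4 ≤ e.1 1 then r e - 5 * r (sh e h) else r e with hδ
  have h := hasDeriv δ e
  rw [coeff_lin] at h
  convert h using 1
  by_cases he : e = z7
  · have hn : ¬ (1 ≤ e.1 0 ∧ 4 ≤ e.1 1) := by
      rw [he]
      simp [z7]
    rw [if_pos he, if_pos he, dif_neg hn]
    simp [hδ, he]
  · rw [if_neg he, if_neg he]
    by_cases hh : 1 ≤ e.1 0 ∧ 4 ≤ e.1 1
    · rw [dif_pos hh]
      have hs : δ (sh e hh) = r (sh e hh) := by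
        have hne : ¬ (1 ≤ (sh e hh).1 0 ∧ 4 ≤ (sh e hh).1 1) := by
          have h2 := e.2
          rw [Fin.sum_univ_three] at h2
          simp only [sh, Matrix.cons_val_zero, Matrix.cons_val_one]
          omega
        simp only [hδ]
        rw [if_neg (sh_ne e hh), dif_neg hne]
      rw [hs]
      simp only [hδ]
      rw [if_neg he, dif_pos hh]
      ring
    · rw [dif_neg hh]
      simp only [hδ]
      rw [if_neg he, dif_neg hh]
      ring

end Pool.Agent.H77.LU.NFD
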