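import Pool.Agent.H15.LU.Targets
import Pool.Agent.H77.LU.NFD

/-!
# MP_812e67_ag, modules NFZ and PFT: the coefficients of `f₀`
-/

set_option autoImplicit false

namespace Pool.Agent.H77.LU.NFZ

open Pool.Agent.H15.LU Filter Topology Pool.Agent.H77.LU.NFD

theorem gp_zero : gp 0 = 0 := by
  unfold gp
  refine Finset.sum_eq_zero fun e _ => ?_
  simp

theorem sb_zero : sb T₀ 0 = tp T₀ := by
  have h : (![MvPolynomial.X 0, MvPolynomial.X 1 + gp 0, MvPolynomial.X 2] :
      Fin 3 → MvPolynomial (Fin 3) ℂ) = MvPolynomial.X := by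
    rw [gp_zero, add_zero]
    funext i
    fin_cases i <;> rfl
  unfold sb
  rw [h, MvPolynomial.aeval_X_left]
  rfl

open MvPolynomial in
theorem nfz : T_NFZ := by
  refine ⟨fun e => ?_, sb_zero⟩
  unfold HH
  rw [sb_zero, tp_T0]
  have h1 : (X 1 * X 2 ^ 2 : MvPolynomial (Fin 3) ℂ) = monomial (fs ![0, 1, 2]) 1 := by
    rw [MvPolynomial.monomial_eq, C_1, one_mul, Finsupp.prod_fintype _ _ (by simp),
      Fin.prod_univ_three]
    simp [fs_apply]
  have h2 : (X 0 ^ 2 * X 2 : MvPolynomial (Fin 3) ℂ) = monomial (fs ![2, 0, 1]) 1 := by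
    rw [MvPolynomial.monomial_eq, C_1, one_mul, Finsupp.prod_fintype _ _ (by simp),
      Fin.prod_univ_three]
    simp [fs_apply]
  have h3 : (X 0 * X 1 ^ 5 : MvPolynomial (Fin 3) ℂ) = monomial (fs ![1, 5, 0]) 1 := by
    rw [MvPolynomial.monomial_eq, C_1, one_mul, Finsupp.prod_fintype _ _ (by simp),
      Fin.prod_univ_three]
    simp [fs_apply]
  rw [h1, h2, h3, coeff_add, coeff_add, coeff_monomial, coeff_monomial, coeff_monomial]
  have n2 : fs ![2, 0, 1] ≠ fs e.1 + Finsupp.single 2 2 := by
    intro h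
    have := DFunLike.congr_fun h 2
    simp [fs_apply] at this
  have n3 : fs ![1, 5, 0] ≠ fs e.1 + Finsupp.single 2 2 := by
    intro h
    have := DFunLike.congr_fun h 2
    simp [fs_apply] at this
  rw [if_neg n2, if_neg n3]
  have n1 : (fs ![0, 1, 2] = fs e.1 + Finsupp.single 2 2) ↔ e.1 = ![0, 1, 0] := by
    constructor
    · intro h
      funext i
      have := DFunLike.congr_fun h i
      fin_cases i
      · simpa [fs_apply, eq_comm] using this
      · simpa [fs_apply, eq_comm] using this
      · simpa [fs_apply, eq_comm] using this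
    · intro h
      rw [h]
      ext i
      fin_cases i <;> simp [fs_apply]
  simp only [n1]
  simp

theorem pft : T_PFT := by
  funext p
  unfold pf f₀
  have h : ∀ e : E9, T₀ e * ∏ i, p i ^ e.1 i =
      (if e = a1 then ∏ i, p i ^ a1.1 i else 0) + (if e = a2 then ∏ i, p i ^ a2.1 i else 0) +
      (if e = a3 then ∏ i, p i ^ a3.1 i else 0) := by
    intro e
    rw [T0_eq, add_mul, add_mul]
    congr 1
    · congr 1
      · split_ifs with h
        · rw [h, one_mul]
        · rw [zero_mul]
      · split_ifs with h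
        · rw [h, one_mul]
        · rw [zero_mul]
    · split_ifs with h
      · rw [h, one_mul]
      · rw [zero_mul]
  rw [Finset.sum_congr rfl fun e _ => h e, Finset.sum_add_distrib, Finset.sum_add_distrib,
    Finset.sum_ite_eq', Finset.sum_ite_eq', Finset.sum_ite_eq']
  simp only [Finset.mem_univ, if_true, Fin.prod_univ_three]
  simp [a1, a2, a3]

end Pool.Agent.H77.LU.NFZ
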