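import Pool.Agent.H15.LU.Targets
import Pool.Agent.H77.LU.NFZ

/-!
# MP_812e67_ag, module NF: the normal form
-/

set_option autoImplicit false

namespace Pool.Agent.H77.LU.NF

open Pool.Agent.H15.LU Filter Topology Asymptotics Polynomial Pool.Agent.H77.LU.NFD

/-- the exponent `(i, j, k)` -/
noncomputable def ex (i j k : ℕ) : Fin 3 →₀ ℕ := fs ![i, j, k]

theorem ex_deg (i j k : ℕ) : (ex i j k).degree = i + j + k := by
  rw [Finsupp.degree_eq_sum, Fin.sum_univ_three]
  rfl

theorem ex_inj {i j k i' j' k' : ℕ} (h : ex i j k = ex i' j' k') : i = i' ∧ j = j' ∧ k = k' := by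
  have := fs_inj h
  refine ⟨?_, ?_, ?_⟩
  · simpa using congrFun this 0
  · simpa using congrFun this 1
  · simpa using congrFun this 2

theorem ex_eq (m : Fin 3 →₀ ℕ) : m = ex (m 0) (m 1) (m 2) := by
  ext i
  fin_cases i <;> rfl

/-- the polynomial in `x` and `y` with coefficients `c i j`, `i + j ≤ d` -/
noncomputable def bp (c : ℕ → ℕ → ℂ) : ℂ[X][X] :=
  ∑ q ∈ Finset.range 10 ×ˢ Finset.range 10,
    Polynomial.monomial q.1 (Polynomial.monomial q.2 (c q.1 q.2))

theorem bp_coeff (c : ℕ → ℕ → ℂ) (i j : ℕ) : ((bp c).coeff i).coeff j =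
    if i < 10 ∧ j < 10 then c i j else 0 := by
  unfold bp
  have h : ∀ q : ℕ × ℕ, ((Polynomial.monomial q.1 (Polynomial.monomial q.2 (c q.1 q.2)) :
      ℂ[X][X]).coeff i).coeff j = if q = (i, j) then c i j else 0 := by
    rintro ⟨a, b⟩
    rw [Polynomial.coeff_monomial]
    by_cases ha : a = i
    · rw [if_pos ha, Polynomial.coeff_monomial]
      by_cases hb : b = j
      · rw [if_pos hb, if_pos (by rw [ha, hb])]
        simp only [ha, hb]
      · rw [if_neg hb, if_neg (fun hh => hb (congrArg Prod.snd hh))]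
    · rw [if_neg ha, if_neg (fun hh => ha (congrArg Prod.fst hh)), Polynomial.coeff_zero]
  rw [Polynomial.finsetSum_coeff, Polynomial.finsetSum_coeff,
    Finset.sum_congr rfl fun q _ => h q, Finset.sum_ite_eq']
  simp [Finset.mem_product]

theorem bp_eval (c : ℕ → ℕ → ℂ) (x y : ℂ) : (bp c).evalEval y x =
    ∑ q ∈ Finset.range 10 ×ˢ Finset.range 10, c q.1 q.2 * x ^ q.1 * y ^ q.2 := by
  unfold bp
  rw [evalEval_finsetSum]
  refine Finset.sum_congr rfl fun q _ => ?_
  rw [evalEval, Polynomial.eval_monomial, Polynomial.eval_mul, Polynomial.eval_monomial,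
    Polynomial.eval_pow, Polynomial.eval_C]
  ring

/-- the polynomial in `x, y, z` with the monomials `x^i y^j z^k`, `k` fixed -/
noncomputable def mp (k : ℕ) (c : ℕ → ℕ → ℂ) : MvPolynomial (Fin 3) ℂ :=
  ∑ q ∈ Finset.range 10 ×ˢ Finset.range 10, MvPolynomial.monomial (ex q.1 q.2 k) (c q.1 q.2)

theorem mp_coeff (k : ℕ) (c : ℕ → ℕ → ℂ) (i j l : ℕ) : (mp k c).coeff (ex i j l) =
    if l = k ∧ i < 10 ∧ j < 10 then c i j else 0 := by
  unfold mp
  have h : ∀ q : ℕ × ℕ, (MvPolynomial.monomial (ex q.1 q.2 k) (c q.1 q.2)).coeff (ex i j l) =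
      if q = (i, j) then (if l = k then c i j else 0) else 0 := by
    rintro ⟨a, b⟩
    rw [MvPolynomial.coeff_monomial]
    by_cases hab : (a, b) = (i, j)
    · rw [if_pos hab]
      simp only [Prod.mk.injEq] at hab
      obtain ⟨rfl, rfl⟩ := hab
      by_cases hk : l = k
      · rw [if_pos hk, if_pos (by rw [hk])]
      · rw [if_neg hk, if_neg (fun hh => hk (ex_inj hh).2.2.symm)]
    · rw [if_neg hab, if_neg]
      intro hh
      obtain ⟨h1, h2, -⟩ := ex_inj hh
      exact hab (by simp only at h1 h2; rw [h1, h2])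
  rw [MvPolynomial.coeff_sum, Finset.sum_congr rfl fun q _ => h q, Finset.sum_ite_eq']
  simp only [Finset.mem_product, Finset.mem_range]
  by_cases hk : l = k
  · simp [hk]
  · simp [hk]

theorem ex_prod (p : Fin 3 → ℂ) (i j k : ℕ) :
    ((ex i j k).prod fun n e => p n ^ e) = p 0 ^ i * p 1 ^ j * p 2 ^ k := by
  rw [Finsupp.prod_fintype _ _ (by simp), Fin.prod_univ_three]
  rfl

theorem mp_eval (k : ℕ) (c : ℕ → ℕ → ℂ) (p : Fin 3 → ℂ) : MvPolynomial.eval p (mp k c) =
    p 2 ^ k * (bp c).evalEval (p 1) (p 0) := by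
  unfold mp
  rw [bp_eval, map_sum, Finset.mul_sum]
  refine Finset.sum_congr rfl fun q _ => ?_
  rw [MvPolynomial.eval_monomial, ex_prod]
  ring

/-- a polynomial without terms of degree at most `9` -/
theorem bigO (D : MvPolynomial (Fin 3) ℂ) (hD : ∀ m : Fin 3 →₀ ℕ, m.degree ≤ 9 → D.coeff m = 0) :
    (fun p : Fin 3 → ℂ => MvPolynomial.eval p D) =O[𝓝 0] fun p => ‖p‖ ^ 10 := by
  have h : (fun p : Fin 3 → ℂ => MvPolynomial.eval p D) =
      fun p => ∑ d ∈ D.support, D.coeff d * ∏ i, p i ^ d i := by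
    funext p
    exact MvPolynomial.eval_eq' p D
  rw [h]
  refine IsBigO.fun_sum fun d hd => ?_
  have h10 : 10 ≤ d.degree := by
    by_contra hh
    push Not at hh
    exact (MvPolynomial.mem_support_iff.1 hd) (hD d (by omega))
  have hd3 : d.degree = ∑ i, d i := Finsupp.degree_eq_sum d
  refine IsBigO.of_bound ‖D.coeff d‖ ?_
  filter_upwards [Metric.closedBall_mem_nhds (0 : Fin 3 → ℂ) one_pos] with p hp
  have hp1 : ‖p‖ ≤ 1 := by simpa using hp
  rw [norm_mul, Real.norm_of_nonneg (by positivity)]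
  refine mul_le_mul_of_nonneg_left ?_ (norm_nonneg _)
  rw [norm_prod]
  calc ∏ i, ‖p i ^ d i‖ ≤ ∏ i, ‖p‖ ^ d i := by
        refine Finset.prod_le_prod (fun i _ => norm_nonneg _) fun i _ => ?_
        rw [norm_pow]
        exact pow_le_pow_left₀ (norm_nonneg _) (norm_le_pi_norm p i) _
    _ = ‖p‖ ^ d.degree := by rw [Finset.prod_pow_eq_pow_sum, hd3]
    _ ≤ ‖p‖ ^ 10 := pow_le_pow_of_le_one (norm_nonneg _) hp1 h10

/-- the change of coordinates -/
noncomputable def th (w : E7 → ℂ) (p : Fin 3 → ℂ) : Fin 3 → ℂ :=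
  ![p 0, p 1 + MvPolynomial.eval p (gp w), p 2]

theorem pf_th (T : E9 → ℂ) (w : E7 → ℂ) (p : Fin 3 → ℂ) :
    pf T (th w p) = MvPolynomial.eval p (sb T w) := by
  unfold pf sb tp
  rw [map_sum, map_sum]
  refine Finset.sum_congr rfl fun e _ => ?_
  rw [MvPolynomial.aeval_monomial, Finsupp.prod_fintype _ _ (by simp), Fin.prod_univ_three,
    Fin.prod_univ_three]
  simp [th, fs_apply]

theorem eval_gp (w : E7 → ℂ) (p : Fin 3 → ℂ) : MvPolynomial.eval p (gp w) =
    ∑ e : E7, if e = z7 then 0 else w e * (p 0 ^ e.1 0 * p 1 ^ e.1 1 * p 2 ^ e.1 2) := by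
  unfold gp
  rw [map_sum]
  refine Finset.sum_congr rfl fun e _ => ?_
  split_ifs with h
  · simp
  · rw [MvPolynomial.eval_monomial, Finsupp.prod_fintype _ _ (by simp), Fin.prod_univ_three]
    rfl

theorem z7_sum {e : E7} (he : e ≠ z7) : ¬ (e.1 0 = 0 ∧ e.1 1 = 0 ∧ e.1 2 = 0) := by
  rintro ⟨h0, h1, h2⟩
  refine he (Subtype.ext (funext fun i => ?_))
  fin_cases i
  · exact h0
  · exact h1
  · exact h2

theorem th_zero (w : E7 → ℂ) : th w 0 = 0 := by
  have h : MvPolynomial.eval (0 : Fin 3 → ℂ) (gp w) = 0 := by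
    rw [eval_gp]
    refine Finset.sum_eq_zero fun e _ => ?_
    split_ifs with h
    · rfl
    · have := z7_sum h
      by_cases h0 : e.1 0 = 0
      · by_cases h1 : e.1 1 = 0
        · have h2 : e.1 2 ≠ 0 := fun h2 => this ⟨h0, h1, h2⟩
          simp [h2]
        · simp [h1]
      · simp [h0]
  unfold th
  rw [h]
  funext i
  fin_cases i <;> simp

/-- the exponent of `y` -/
def y7 : E7 := ⟨![0, 1, 0], by decide⟩

theorem gp_line (w : E7 → ℂ) : HasDerivAt (fun t : ℂ => MvPolynomial.eval (t • ![0, 1, 0])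
    (gp w)) (w y7) 0 := by
  have h : (fun t : ℂ => MvPolynomial.eval (t • ![0, 1, 0]) (gp w)) = fun t : ℂ =>
      ∑ e : E7, if e = z7 then 0 else w e * ((0 : ℂ) ^ e.1 0 * t ^ e.1 1 * 0 ^ e.1 2) := by
    funext t
    rw [eval_gp]
    refine Finset.sum_congr rfl fun e _ => ?_
    simp
  rw [h]
  have hs : w y7 = ∑ e : E7, if e = y7 then w y7 else 0 := by simp
  rw [hs]
  refine HasDerivAt.fun_sum fun e _ => ?_
  by_cases hz : e = z7
  · have hzy : z7 ≠ y7 := by
      intro hh
      have := congrFun (congrArg Subtype.val hh) 1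
      simp [z7, y7] at this
    simp only [hz, if_true, if_neg hzy]
    exact hasDerivAt_const _ _
  · simp only [hz, if_false]
    by_cases hy : e = y7
    · rw [if_pos hy]
      subst hy
      have := (hasDerivAt_id (0 : ℂ)).const_mul (w y7)
      simpa [y7] using this
    · rw [if_neg hy]
      by_cases h0 : e.1 0 = 0
      · by_cases h2 : e.1 2 = 0
        · have h1 : e.1 1 ≠ 0 := fun h1 => z7_sum hz ⟨h0, h1, h2⟩
          have h1' : e.1 1 ≠ 1 := by
            intro h1
            refine hy (Subtype.ext (funext fun i => ?_))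
            fin_cases i
            · exact h0
            · exact h1
            · exact h2
          obtain ⟨n, hn⟩ : ∃ n, e.1 1 = n + 2 := ⟨e.1 1 - 2, by omega⟩
          rw [h0, h2, hn]
          have := (hasDerivAt_pow (n + 2) (0 : ℂ)).const_mul (w e)
          simpa using this
        · simp only [zero_pow h2, mul_zero]
          exact hasDerivAt_const _ _
      · simp only [zero_pow h0, mul_zero, zero_mul]
        exact hasDerivAt_const _ _

theorem ldiff (w : E7 → ℂ) (hw : ‖w y7‖ ≤ 1 / 4) : LDiff (th w) := by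
  have hga : AnalyticAt ℂ (fun p : Fin 3 → ℂ => MvPolynomial.eval p (gp w)) 0 :=
    AnalyticAt.aeval_mvPolynomial (f := fun p : Fin 3 → ℂ => p)
      (fun i => (ContinuousLinearMap.proj (R := ℂ) (φ := fun _ : Fin 3 => ℂ) i).analyticAt _) _
  have hpa : ∀ i : Fin 3, AnalyticAt ℂ (fun p : Fin 3 → ℂ => p i) 0 := fun i =>
    (ContinuousLinearMap.proj (R := ℂ) (φ := fun _ : Fin 3 => ℂ) i).analyticAt _
  have hth : AnalyticAt ℂ (th w) 0 := by
    refine analyticAt_pi_iff.2 fun i => ?_
    fin_cases i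
    · exact hpa 0
    · exact (hpa 1).add hga
    · exact hpa 2
  refine ⟨hth, th_zero w, ?_⟩
  have hd := hth.differentiableAt.hasFDerivAt
  set A := fderiv ℂ (th w) 0 with hA
  have hgd := hga.differentiableAt.hasFDerivAt
  set g' := fderiv ℂ (fun p : Fin 3 → ℂ => MvPolynomial.eval p (gp w)) 0 with hg'
  have hdi := hasFDerivAt_pi'.1 hd
  have hp' : ∀ i : Fin 3, HasFDerivAt (fun p : Fin 3 → ℂ => p i)
      (ContinuousLinearMap.proj (R := ℂ) (φ := fun _ : Fin 3 => ℂ) i) 0 :=
    fun i => hasFDerivAt_apply i 0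
  have h0 := (hdi 0).unique (hp' 0)
  have h1 := (hdi 1).unique ((hp' 1).add hgd)
  have h2 := (hdi 2).unique (hp' 2)
  have hg1 : g' ![0, 1, 0] = w y7 := by
    have hl : HasDerivAt (fun t : ℂ => t • (![0, 1, 0] : Fin 3 → ℂ)) ![0, 1, 0] 0 := by
      have := (hasDerivAt_id (0 : ℂ)).smul_const (![0, 1, 0] : Fin 3 → ℂ)
      simpa using this
    have hgd' : HasFDerivAt (fun p : Fin 3 → ℂ => MvPolynomial.eval p (gp w)) g'
        ((fun t : ℂ => t • (![0, 1, 0] : Fin 3 → ℂ)) 0) := by
      simpa using hgd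
    have hcomp := hgd'.comp_hasDerivAt (0 : ℂ) hl
    exact HasDerivAt.unique (f := fun t : ℂ => MvPolynomial.eval (t • ![0, 1, 0]) (gp w))
      hcomp (gp_line w)
  have hinj : Function.Injective A := by
    refine (injective_iff_map_eq_zero A).2 fun v hv => ?_
    have e0 : v 0 = 0 := by
      have := congrArg (fun L => L v) h0
      simpa [hv] using this.symm
    have e2 : v 2 = 0 := by
      have := congrArg (fun L => L v) h2
      simpa [hv] using this.symm
    have e1 : v 1 + g' v = 0 := by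
      have := congrArg (fun L => L v) h1
      simpa [hv] using this.symm
    have hv1 : v = v 1 • ![0, 1, 0] := by
      funext i
      fin_cases i
      · simp [e0]
      · simp
      · simp [e2]
    have e3 : v 1 * (1 + w y7) = 0 := by
      have : g' v = v 1 * w y7 := by
        conv_lhs => rw [hv1]
        rw [map_smul, hg1, smul_eq_mul]
      rw [this] at e1
      linear_combination e1
    have e4 : v 1 = 0 := by
      rcases mul_eq_zero.1 e3 with h | h
      · exact h
      · exfalso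
        have : w y7 = -1 := by linear_combination h
        rw [this] at hw
        norm_num at hw
    rw [hv1, e4, zero_smul]
  exact ⟨hinj, (LinearMap.injective_iff_surjective (f := (A : (Fin 3 → ℂ) →ₗ[ℂ] (Fin 3 → ℂ)))).1
    hinj⟩

theorem tp_coeff (i j k : ℕ) : (tp T₀).coeff (ex i j k) =
    if (i = 0 ∧ j = 1 ∧ k = 2) ∨ (i = 2 ∧ j = 0 ∧ k = 1) ∨ (i = 1 ∧ j = 5 ∧ k = 0) then 1 else 0 := by
  have hm : ∀ a b c : ℕ, (MvPolynomial.X 0 ^ a * MvPolynomial.X 1 ^ b * MvPolynomial.X 2 ^ c :
      MvPolynomial (Fin 3) ℂ) = MvPolynomial.monomial (ex a b c) 1 := by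
    intro a b c
    rw [MvPolynomial.monomial_eq, MvPolynomial.C_1, one_mul, Finsupp.prod_fintype _ _ (by simp),
      Fin.prod_univ_three]
    rfl
  have h : tp T₀ = MvPolynomial.monomial (ex 0 1 2) 1 + MvPolynomial.monomial (ex 2 0 1) 1 +
      MvPolynomial.monomial (ex 1 5 0) 1 := by
    rw [← hm, ← hm, ← hm, tp_T0]
    ring
  rw [h, MvPolynomial.coeff_add, MvPolynomial.coeff_add, MvPolynomial.coeff_monomial,
    MvPolynomial.coeff_monomial, MvPolynomial.coeff_monomial]
  have hi : ∀ a b c, (ex a b c = ex i j k) ↔ (i = a ∧ j = b ∧ k = c) := by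
    intro a b c
    constructor
    · intro hh
      obtain ⟨h1, h2, h3⟩ := ex_inj hh
      exact ⟨h1.symm, h2.symm, h3.symm⟩
    · rintro ⟨rfl, rfl, rfl⟩
      rfl
  simp only [hi]
  by_cases c1 : i = 0 ∧ j = 1 ∧ k = 2
  · obtain ⟨rfl, rfl, rfl⟩ := c1
    simp
  · by_cases c2 : i = 2 ∧ j = 0 ∧ k = 1
    · obtain ⟨rfl, rfl, rfl⟩ := c2
      simp
    · simp [c1, c2]

theorem nf_ (h1 : T_NFI) : T_NF := by
  intro ε hε
  obtain ⟨δ, hδ, hT⟩ := h1 (min ε (1 / 4)) (by positivity)
  refine ⟨δ, hδ, fun T hTT => ?_⟩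
  obtain ⟨w, hw, hH, hc⟩ := hT T hTT
  set cQ : ℕ → ℕ → ℂ := fun i j => if i + j ≤ 8 then (sb T w).coeff (ex i j 1) else 0 with hcQ
  set cR : ℕ → ℕ → ℂ := fun i j => if i + j ≤ 9 then (sb T w).coeff (ex i j 0) else 0 with hcR
  refine ⟨th w, w z7, bp cQ, bp cR, ldiff w ((hw y7).trans (min_le_right _ _)),
    (hw z7).trans (min_le_left _ _), ?_, ?_, ?_⟩
  · refine ⟨fun i j hij => ?_, fun i j => ?_⟩
    · rw [bp_coeff, if_neg (by omega)]
    · have hQ0 : ((Q₀.coeff i).coeff j) = if i = 2 ∧ j = 0 then 1 else 0 := by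
        unfold Q₀
        rw [Polynomial.coeff_X_pow]
        by_cases hi : i = 2
        · rw [if_pos hi]
          simp [hi, Polynomial.coeff_one]
        · rw [if_neg hi]
          simp [hi]
      rw [bp_coeff, hQ0]
      by_cases hij : i + j ≤ 8
      · rw [if_pos (by omega)]
        simp only [hcQ]
        rw [if_pos hij]
        have h3 := hc (ex i j 1) (by rw [ex_deg]; omega)
        rw [tp_coeff] at h3
        rw [if_congr (show ((i = 0 ∧ j = 1 ∧ 1 = 2) ∨ (i = 2 ∧ j = 0 ∧ 1 = 1) ∨
          (i = 1 ∧ j = 5 ∧ 1 = 0)) ↔ (i = 2 ∧ j = 0) by omega) rfl rfl] at h3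
        exact h3.trans (min_le_left _ _)
      · have h5 : cQ i j = 0 := by
          simp only [hcQ]
          rw [if_neg hij]
        rw [h5, if_neg (show ¬ (i = 2 ∧ j = 0) by omega)]
        simpa using hε.le
  · refine ⟨fun i j hij => ?_, fun i j => ?_⟩
    · rw [bp_coeff, if_neg (by omega)]
    · have hR0 : ((R₀.coeff i).coeff j) = if i = 1 ∧ j = 5 then 1 else 0 := by
        unfold R₀
        rw [Polynomial.coeff_C_mul_X]
        by_cases hi : i = 1
        · rw [if_pos hi]
          simp [hi, Polynomial.coeff_X_pow]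
        · rw [if_neg hi]
          simp [hi]
      rw [bp_coeff, hR0]
      by_cases hij : i + j ≤ 9
      · rw [if_pos (by omega)]
        simp only [hcR]
        rw [if_pos hij]
        have h3 := hc (ex i j 0) (by rw [ex_deg]; omega)
        rw [tp_coeff] at h3
        rw [if_congr (show ((i = 0 ∧ j = 1 ∧ 0 = 2) ∨ (i = 2 ∧ j = 0 ∧ 0 = 1) ∨
          (i = 1 ∧ j = 5 ∧ 0 = 0)) ↔ (i = 1 ∧ j = 5) by omega) rfl rfl] at h3
        exact h3.trans (min_le_left _ _)
      · have h5 : cR i j = 0 := by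
          simp only [hcR]
          rw [if_neg hij]
        rw [h5, if_neg (show ¬ (i = 1 ∧ j = 5) by omega)]
        simpa using hε.le
  · set N : MvPolynomial (Fin 3) ℂ := MvPolynomial.monomial (ex 0 1 2) 1 +
      MvPolynomial.monomial (ex 0 0 2) (w z7) + mp 1 cQ + mp 0 cR with hN
    have hev : (fun p => pf T (th w p) - nf (w z7) (bp cQ) (bp cR) p) =
        fun p => MvPolynomial.eval p (sb T w - N) := by
      funext p
      rw [pf_th, map_sub, hN, map_add, map_add, map_add, mp_eval, mp_eval,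
        MvPolynomial.eval_monomial, MvPolynomial.eval_monomial, ex_prod, ex_prod]
      unfold nf
      ring
    rw [hev]
    refine bigO _ fun m hm => ?_
    rw [ex_eq m] at hm ⊢
    generalize m 0 = i at hm ⊢
    generalize m 1 = j at hm ⊢
    generalize m 2 = k at hm ⊢
    rw [ex_deg] at hm
    rw [MvPolynomial.coeff_sub, hN, MvPolynomial.coeff_add, MvPolynomial.coeff_add,
      MvPolynomial.coeff_add, mp_coeff, mp_coeff, MvPolynomial.coeff_monomial,
      MvPolynomial.coeff_monomial]
    rcases Nat.lt_or_ge k 2 with hk | hk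
    · have n1 : ex 0 1 2 ≠ ex i j k := fun hh => by have := (ex_inj hh).2.2; omega
      have n2 : ex 0 0 2 ≠ ex i j k := fun hh => by have := (ex_inj hh).2.2; omega
      rw [if_neg n1, if_neg n2]
      interval_cases k
      · rw [if_neg (by omega), if_pos (by omega)]
        simp only [hcR]
        rw [if_pos (by omega)]
        ring
      · rw [if_pos (by omega), if_neg (by omega)]
        simp only [hcQ]
        rw [if_pos (by omega)]
        ring
    · obtain ⟨l, rfl⟩ : ∃ l, k = l + 2 := ⟨k - 2, by omega⟩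
      rw [if_neg (show ¬ (l + 2 = 1 ∧ i < 10 ∧ j < 10) by omega),
        if_neg (show ¬ (l + 2 = 0 ∧ i < 10 ∧ j < 10) by omega)]
      have hE := hH ⟨![i, j, l], by
        rw [Fin.sum_univ_three]
        simp only [Matrix.cons_val_zero, Matrix.cons_val_one, Matrix.cons_val]
        omega⟩
      unfold HH at hE
      have hfs : fs ![i, j, l] + Finsupp.single 2 2 = ex i j (l + 2) := by
        ext q
        fin_cases q <;> simp [ex, fs_apply]
      simp only [hfs] at hE
      have c1 : ((![i, j, l] : Fin 3 → ℕ) = ![0, 1, 0]) ↔ (ex 0 1 2 = ex i j (l + 2)) := by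
        constructor
        · intro hh
          have a0 := congrFun hh 0
          have a1 := congrFun hh 1
          have a2 := congrFun hh 2
          simp at a0 a1 a2
          rw [a0, a1, a2]
        · intro hh
          obtain ⟨a0, a1, a2⟩ := ex_inj hh
          rw [← a0, ← a1, show l = 0 by omega]
      have c2 : ((⟨![i, j, l], by
          rw [Fin.sum_univ_three]
          simp only [Matrix.cons_val_zero, Matrix.cons_val_one, Matrix.cons_val]
          omega⟩ : E7) = z7) ↔ (ex 0 0 2 = ex i j (l + 2)) := by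
        constructor
        · intro hh
          have a0 := congrFun (congrArg Subtype.val hh) 0
          have a1 := congrFun (congrArg Subtype.val hh) 1
          have a2 := congrFun (congrArg Subtype.val hh) 2
          simp [z7] at a0 a1 a2
          rw [a0, a1, a2]
        · intro hh
          obtain ⟨a0, a1, a2⟩ := ex_inj hh
          refine Subtype.ext (funext fun q => ?_)
          fin_cases q
          · simp [z7, ← a0]
          · simp [z7, ← a1]
          · simp [z7, show l = 0 by omega]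
      simp only [c1, c2] at hE
      linear_combination hE

end Pool.Agent.H77.LU.NF
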