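import Pool.Agent.H15.LU.Targets

/-!
# MP_812e67_ag, module NFI: the equations of the normal form can be solved
-/

set_option autoImplicit false

namespace Pool.Agent.H77.LU.NFI

open Pool.Agent.H15.LU Filter Topology

theorem nfi (h1 : T_NFS) (h2 : T_NFZ) (h3 : T_NFD) : T_NFI := by
  classical
  have hH : ∀ e : E7, ContDiff ℂ 1 (fun v : (E9 → ℂ) × (E7 → ℂ) => HH v.1 v.2 e) := by
    intro e
    unfold HH
    refine ((h1 _).sub contDiff_const).sub ?_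
    by_cases he : e = z7
    · simp only [he, if_true]
      exact (contDiff_apply ℂ ℂ z7).comp contDiff_snd
    · simp only [he, if_false]
      exact contDiff_const
  set G : (E9 → ℂ) × (E7 → ℂ) → (E7 → ℂ) := fun v e => HH v.1 v.2 e with hGdef
  have hG : ContDiff ℂ 1 G := contDiff_pi.2 hH
  have hGs := hG.hasStrictFDerivAt (x := (T₀, (0 : E7 → ℂ))) one_ne_zero
  set B := fderiv ℂ G (T₀, 0) with hB
  have hBF : HasFDerivAt G B (T₀, 0) := hGs.hasFDerivAt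
  -- the derivative along the second variable
  have hline : ∀ (δ r : E7 → ℂ), (∀ e, HasDerivAt (fun s : ℂ => HH T₀ (s • δ) e) (r e) 0) →
      B (0, δ) = r := by
    intro δ r hδ
    have hl : HasDerivAt (fun s : ℂ => ((T₀, s • δ) : (E9 → ℂ) × (E7 → ℂ))) (0, δ) 0 := by
      refine (hasDerivAt_const (0 : ℂ) T₀).prodMk ?_
      have := (hasDerivAt_id (0 : ℂ)).smul_const δ
      simpa using this
    have hBF' : HasFDerivAt G B ((fun s : ℂ => ((T₀, s • δ) : (E9 → ℂ) × (E7 → ℂ))) 0) := by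
      simpa using hBF
    have hc := hBF'.comp_hasDerivAt (0 : ℂ) hl
    have hc' := hasDerivAt_pi.1 hc
    funext e
    exact (hc' e).unique (hδ e)
  set Φ : (E9 → ℂ) × (E7 → ℂ) → (E9 → ℂ) × (E7 → ℂ) := fun v => (v.1, G v) with hΦ
  have hΦs : HasStrictFDerivAt Φ ((ContinuousLinearMap.fst ℂ (E9 → ℂ) (E7 → ℂ)).prod B)
      (T₀, 0) := hasStrictFDerivAt_fst.prodMk hGs
  have hsurj : ((ContinuousLinearMap.fst ℂ (E9 → ℂ) (E7 → ℂ)).prod B).range = ⊤ := by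
    rw [LinearMap.range_eq_top]
    rintro ⟨T', r⟩
    obtain ⟨δ, hδ⟩ := h3 (r - B (T', 0))
    refine ⟨(T', δ), ?_⟩
    have e1 := hline δ _ hδ
    have e2 : ((T', δ) : (E9 → ℂ) × (E7 → ℂ)) = (T', 0) + (0, δ) := by simp
    have e3 : B (T', δ) = r := by
      rw [e2, map_add, e1]
      abel
    show ((T', B (T', δ)) : (E9 → ℂ) × (E7 → ℂ)) = (T', r)
    rw [e3]
  have hmap := hΦs.map_nhds_eq_of_surj hsurj
  have hΦ0 : Φ (T₀, 0) = (T₀, 0) := by
    show ((T₀, fun e => HH T₀ 0 e) : (E9 → ℂ) × (E7 → ℂ)) = (T₀, 0)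
    congr 1
    funext e
    exact h2.1 e
  rw [hΦ0] at hmap
  intro ε hε
  have hN : ∀ᶠ v in 𝓝 ((T₀, 0) : (E9 → ℂ) × (E7 → ℂ)), (∀ e, ‖v.2 e‖ ≤ ε) ∧
      ∀ m : Fin 3 →₀ ℕ, m.degree ≤ 9 → ‖(sb v.1 v.2).coeff m - (tp T₀).coeff m‖ ≤ ε := by
    refine Filter.Eventually.and ?_ ?_
    · refine Filter.eventually_all.2 fun e => ?_
      have hc : Continuous fun v : (E9 → ℂ) × (E7 → ℂ) => ‖v.2 e‖ := by fun_prop
      have := hc.continuousAt (x := (T₀, (0 : E7 → ℂ)))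
      have h0 : ∀ᶠ v in 𝓝 ((T₀, 0) : (E9 → ℂ) × (E7 → ℂ)), ‖v.2 e‖ < ε :=
        this.eventually (gt_mem_nhds (by simpa using hε))
      exact h0.mono fun v hv => hv.le
    · have hfin : {m : Fin 3 →₀ ℕ | m.degree ≤ 9}.Finite := Finsupp.finite_of_degree_le 9
      have := (Filter.eventually_all_finite (l := 𝓝 ((T₀, 0) : (E9 → ℂ) × (E7 → ℂ)))
        (p := fun m v => ‖(sb v.1 v.2).coeff m - (tp T₀).coeff m‖ ≤ ε) hfin).2 (by
          intro m _
          have hc : Continuous fun v : (E9 → ℂ) × (E7 → ℂ) =>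
              ‖(sb v.1 v.2).coeff m - (tp T₀).coeff m‖ :=
            ((h1 m).continuous.sub continuous_const).norm
          have := hc.continuousAt (x := (T₀, (0 : E7 → ℂ)))
          have h0 : ∀ᶠ v in 𝓝 ((T₀, 0) : (E9 → ℂ) × (E7 → ℂ)),
              ‖(sb v.1 v.2).coeff m - (tp T₀).coeff m‖ < ε :=
            this.eventually (gt_mem_nhds (by simpa [h2.2] using hε))
          exact h0.mono fun v hv => hv.le)
      exact this.mono fun v hv m hm => hv m hm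
  have himg : Φ '' {v | (∀ e, ‖v.2 e‖ ≤ ε) ∧
      ∀ m : Fin 3 →₀ ℕ, m.degree ≤ 9 → ‖(sb v.1 v.2).coeff m - (tp T₀).coeff m‖ ≤ ε} ∈
      𝓝 ((T₀, 0) : (E9 → ℂ) × (E7 → ℂ)) := by
    rw [← hmap]
    exact Filter.image_mem_map hN
  obtain ⟨ρ, hρ, hball⟩ := Metric.mem_nhds_iff.1 himg
  refine ⟨ρ / 2, by positivity, fun T hT => ?_⟩
  have hmem : ((T, 0) : (E9 → ℂ) × (E7 → ℂ)) ∈ Metric.ball (T₀, (0 : E7 → ℂ)) ρ := by
    rw [Metric.mem_ball, Prod.dist_eq]
    refine max_lt ?_ (by simpa using hρ)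
    refine lt_of_le_of_lt ((dist_pi_le_iff (by positivity)).2 fun e => ?_) (half_lt_self hρ)
    rw [dist_eq_norm]
    exact hT e
  obtain ⟨⟨T', w⟩, hv, hw⟩ := hball hmem
  have hT' : T' = T := congrArg Prod.fst hw
  have hw' : (fun e => HH T' w e) = 0 := congrArg Prod.snd hw
  subst hT'
  exact ⟨w, hv.1, fun e => congrFun hw' e, hv.2⟩

end Pool.Agent.H77.LU.NFI
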