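import Pool.Agent.H15.LU.Targets

/-!
# MP_812e67_ag, module NFS: smoothness of the coefficients
-/

set_option autoImplicit false

namespace Pool.Agent.H77.LU.NFS

open Pool.Agent.H15.LU Filter Topology

abbrev V : Type := (E9 → ℂ) × (E7 → ℂ)

/-- all coefficients are continuously differentiable -/
def Sm (P : V → MvPolynomial (Fin 3) ℂ) : Prop :=
  ∀ m : Fin 3 →₀ ℕ, ContDiff ℂ 1 fun v => (P v).coeff m

theorem sm_const (p : MvPolynomial (Fin 3) ℂ) : Sm fun _ => p := fun _ => contDiff_const

theorem Sm.add {P Q : V → MvPolynomial (Fin 3) ℂ} (hP : Sm P) (hQ : Sm Q) :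
    Sm fun v => P v + Q v := by
  intro m
  simp only [MvPolynomial.coeff_add]
  exact (hP m).add (hQ m)

theorem Sm.mul {P Q : V → MvPolynomial (Fin 3) ℂ} (hP : Sm P) (hQ : Sm Q) :
    Sm fun v => P v * Q v := by
  classical
  intro m
  simp only [MvPolynomial.coeff_mul]
  exact ContDiff.sum fun i _ => (hP i.1).mul (hQ i.2)

theorem Sm.pow {P : V → MvPolynomial (Fin 3) ℂ} (hP : Sm P) (n : ℕ) :
    Sm fun v => P v ^ n := by
  induction n with
  | zero => simp only [pow_zero]; exact sm_const 1
  | succ n ih => simp only [pow_succ]; exact ih.mul hP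

theorem sm_sum {ι : Type} (s : Finset ι) {P : ι → V → MvPolynomial (Fin 3) ℂ}
    (hP : ∀ i ∈ s, Sm (P i)) : Sm fun v => ∑ i ∈ s, P i v := by
  intro m
  simp only [MvPolynomial.coeff_sum]
  exact ContDiff.sum fun i hi => hP i hi m

theorem sm_mono {c : V → ℂ} (hc : ContDiff ℂ 1 c) (e : Fin 3 →₀ ℕ) :
    Sm fun v => MvPolynomial.monomial e (c v) := by
  classical
  intro m
  simp only [MvPolynomial.coeff_monomial]
  by_cases h : e = m
  · simp only [h, if_true]; exact hc
  · simp only [h, if_false]; exact contDiff_const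

theorem sm_gp : Sm fun v => gp v.2 := by
  unfold gp
  refine sm_sum _ fun e _ => ?_
  split_ifs with h
  · exact sm_const 0
  · exact sm_mono ((contDiff_apply ℂ ℂ e).comp contDiff_snd) _

theorem nfs : T_NFS := by
  have h : Sm fun v => sb v.1 v.2 := by
    have he : (fun v : V => sb v.1 v.2) = fun v => ∑ e : E9,
        MvPolynomial.monomial 0 (v.1 e) * (MvPolynomial.X 0 ^ e.1 0 *
          (MvPolynomial.X 1 + gp v.2) ^ e.1 1 * MvPolynomial.X 2 ^ e.1 2) := by
      funext v
      unfold sb tp
      rw [map_sum]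
      refine Finset.sum_congr rfl fun e _ => ?_
      rw [MvPolynomial.aeval_monomial, Finsupp.prod_fintype _ _ (by simp), Fin.prod_univ_three]
      rfl
    rw [he]
    refine sm_sum _ fun e _ => ?_
    exact (sm_mono ((contDiff_apply ℂ ℂ e).comp contDiff_fst) _).mul
      (((sm_const _).mul (((sm_const _).add sm_gp).pow _)).mul (sm_const _))
  exact h

end Pool.Agent.H77.LU.NFS
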